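import Pool.Agent.Helper13.TR.StB

/-!
# Project TR (MP_a45945_gt): modules SEP and NLI
-/

set_option autoImplicit false

namespace Pool.Agent.Helper12.TR

open Set Topology Pool.Agent.Helper13.TR

/-- a path in the union of two disjoint open sets stays in one of them -/
private theorem stay {W : Type} [TopologicalSpace W] {A O₀ O₁ : Set W} (h0 : IsOpen O₀) (h1 : IsOpen O₁)
    (hd : O₀ ∩ O₁ = ∅) (hu : O₀ ∪ O₁ = Aᶜ) (a b : W) (hab : JoinedIn Aᶜ a b) : a ∈ O₁ ↔ b ∈ O₁ := by
  obtain ⟨γ, hγ⟩ := hab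
  have hcl : IsClopen (γ ⁻¹' O₁) := by
    refine ⟨⟨?_⟩, h1.preimage γ.continuous⟩
    have : (γ ⁻¹' O₁)ᶜ = γ ⁻¹' O₀ := by
      ext t
      constructor
      · intro ht
        have h := hγ t
        rw [← hu] at h
        rcases h with h | h
        · exact h
        · exact absurd h ht
      · intro ht ht'
        have : γ t ∈ O₀ ∩ O₁ := ⟨ht, ht'⟩
        rw [hd] at this
        exact this
    rw [this]
    exact h0.preimage γ.continuous
  rcases isClopen_iff.1 hcl with h | h
  · constructor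
    · intro ha
      exfalso
      have : (0 : unitInterval) ∈ γ ⁻¹' O₁ := by
        rw [mem_preimage, γ.source]
        exact ha
      rw [h] at this
      exact this
    · intro hb
      exfalso
      have : (1 : unitInterval) ∈ γ ⁻¹' O₁ := by
        rw [mem_preimage, γ.target]
        exact hb
      rw [h] at this
      exact this
  · have h0' : (0 : unitInterval) ∈ γ ⁻¹' O₁ := by
      rw [h]
      exact mem_univ _
    have h1' : (1 : unitInterval) ∈ γ ⁻¹' O₁ := by
      rw [h]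
      exact mem_univ _
    rw [mem_preimage, γ.source] at h0'
    rw [mem_preimage, γ.target] at h1'
    exact ⟨fun _ => h1', fun _ => h0'⟩

/-- SEP -/
theorem hSEP (hJOI : StJOI) (_hMON : StMON) (hSDA : StSDA) : StSEP := by
  intro W _ _ A O₀ O₁ hA hO₀ hO₁ hdis huni ⟨x₀, hx₀⟩ ⟨x₁, hx₁⟩
  obtain ⟨e, -, hbe⟩ := (hJOI W univ).1 x₀ x₁ (joinedIn_univ.2 (PathConnectedSpace.joined x₀ x₁))
  have hx₀A : x₀ ∈ Aᶜ := by
    rw [← huni]
    exact Or.inl hx₀
  have hx₁A : x₁ ∈ Aᶜ := by
    rw [← huni]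
    exact Or.inr hx₁
  have hx₀1 : x₀ ∉ O₁ := by
    intro h
    have : x₀ ∈ O₀ ∩ O₁ := ⟨hx₀, h⟩
    rw [hdis] at this
    exact this
  have hcyc : e ∈ Cyc A 1 := by
    change bd 0 e ∈ cin Aᶜ 0
    rw [hbe]
    exact Submodule.sub_mem _ ((hJOI W Aᶜ).2.2.2.2 x₁ hx₁A) ((hJOI W Aᶜ).2.2.2.2 x₀ hx₀A)
  have hn : e ∈ cin Aᶜ 1 ⊔ LinearMap.range (bd 1) := hA hcyc
  obtain ⟨ρ, hρ, b', ⟨b, hb⟩, hsum⟩ := Submodule.mem_sup.1 hn
  have hbb : bd 0 b' = 0 := by
    rw [← hb]
    exact (hSDA W).1 0 b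
  have hρe : bd 0 ρ = Finsupp.single (pt x₁) 1 - Finsupp.single (pt x₀) 1 := by
    rw [← hbe, ← hsum, map_add, hbb, add_zero]
  have hev : ev O₁ (bd 0 ρ) = 0 := (hJOI W Aᶜ).2.1 O₁ (stay hO₀ hO₁ hdis huni) ρ hρ
  rw [hρe, map_sub, ((hJOI W Aᶜ).2.2.1 O₁ x₁).1 hx₁, ((hJOI W Aᶜ).2.2.1 O₁ x₀).2 hx₀1] at hev
  norm_num at hev

/-- NLI -/
theorem hNLI (hSEP : StSEP) (hMON : StMON) (hJOI : StJOI) : StNLI := by
  intro W _ _ _ hHM s hinj
  obtain ⟨w⟩ : Nonempty W := PathConnectedSpace.nonempty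
  -- a second point
  have hw' : ∃ w' : W, w' ≠ w := by
    have hmem : Finsupp.single (pt w) (1 : ℤ) ∈ Cyc ({w} : Set W) 0 := by
      change Finsupp.single (pt w) (1 : ℤ) ∈ (⊤ : Submodule ℤ (Ch W 0))
      exact Submodule.mem_top
    have hn : Finsupp.single (pt w) (1 : ℤ) ∈ cin ({w} : Set W)ᶜ 0 ⊔ LinearMap.range (bd 0) :=
      hHM.low w 0 (by norm_num) hmem
    obtain ⟨ρ, hρ, b', ⟨b, hb⟩, hsum⟩ := Submodule.mem_sup.1 hn
    have hbu : b ∈ cin (univ : Set W) 1 := by
      rw [(hMON W).2.2.1 1]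
      exact Submodule.mem_top
    have hev : ev univ (bd 0 b) = 0 := (hJOI W univ).2.1 univ (fun _ _ _ => by simp) b hbu
    have hρ0 : ρ ≠ 0 := by
      intro h0
      have h1 := ((hJOI W univ).2.2.1 univ w).1 (mem_univ w)
      rw [← hsum, h0, zero_add, ← hb, hev] at h1
      norm_num at h1
    obtain ⟨σ, hσ⟩ := Finsupp.support_nonempty_iff.2 hρ0
    have hσ' : range σ ⊆ ({w} : Set W)ᶜ := by
      have := (Finsupp.mem_supported ℤ ρ).1 hρ hσ
      exact this
    exact ⟨σ (stdSimplex.vertex 0), hσ' (mem_range_self _)⟩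
  obtain ⟨w', hww⟩ := hw'
  -- two points with different values and a point between them
  have hkey : ∀ a b : W, s a < s b → False := by
    intro a b hab
    obtain ⟨u, hu⟩ := intermediate_value_univ a b s.continuous
      (show (s a + s b) / 2 ∈ Icc (s a) (s b) from ⟨by linarith, by linarith⟩)
    refine hSEP W {u} {x | s x < s u} {x | s u < s x} (hHM.low u 1 (by norm_num))
      (isOpen_lt s.continuous continuous_const) (isOpen_lt continuous_const s.continuous) ?_ ?_ ⟨a, ?_⟩ ⟨b, ?_⟩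
    · ext x
      simp only [mem_inter_iff, mem_ofPred_eq, mem_empty_iff_false, iff_false, not_and, not_lt]
      intro h
      exact h.le
    · ext x
      simp only [mem_union, mem_ofPred_eq, mem_compl_iff, mem_singleton_iff]
      constructor
      · rintro (h | h) hx
        · rw [hx] at h
          exact lt_irrefl _ h
        · rw [hx] at h
          exact lt_irrefl _ h
      · intro hx
        rcases lt_trichotomy (s x) (s u) with h | h | h
        · exact Or.inl h
        · exact absurd (hinj h) hx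
        · exact Or.inr h
    · change s a < s u
      rw [hu]
      linarith
    · change s u < s b
      rw [hu]
      linarith
  rcases lt_trichotomy (s w) (s w') with h | h | h
  · exact hkey w w' h
  · exact hww (hinj h).symm
  · exact hkey w' w h

end Pool.Agent.Helper12.TR
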